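import Pool.Agent.Work.MP_db9399_lab_helper61.Lab

/-!
# MP_db9399, LAB with several labels (helper61)

`labM`: items `v` with probabilities `p v l`, `l < g`, are labelled by `L v < g` with `0 < p v (L v)`;
the functionals `w k` are kept on every side for every label up to `g (g m) W`, all test forms up to
`g (J + 1) (√(32 m g Λ) + 1) |a|₂`.
-/

set_option autoImplicit false

namespace Pool.Agent.Work.MP_db9399_lab.helper61

open Finset Classical

universe u

variable {V ι κ : Type u} [Fintype V] [Fintype ι] [Fintype κ]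

/-- remaining probability -/
noncomputable def rem (g : ℕ) (p : V → ℕ → ℝ) (l : ℕ) (v : V) : ℝ := ∑ j ∈ Ico l g, p v j

/-- indicator -/
noncomputable def ind (L : V → ℕ) (l : ℕ) (v : V) : ℝ := if L v = l then 1 else 0

/-- the fraction of the rest which will get the label `j` -/
noncomputable def cf (g : ℕ) (p : V → ℕ → ℝ) (l j : ℕ) (v : V) : ℝ :=
  if j = l then 1 else if l < j then p v j / rem g p (l + 1) v else 0

/-- coefficient of the present labelling in the class `j` -/
noncomputable def co (g : ℕ) (p : V → ℕ → ℝ) (L : V → ℕ) (l j : ℕ) (v : V) : ℝ :=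
  if j < l then ind L j v else ind L l v * (p v j / rem g p l v)

omit [Fintype V] in
theorem rem_nonneg {g : ℕ} {p : V → ℕ → ℝ} (hp : ∀ v j, 0 ≤ p v j) (l : ℕ) (v : V) :
    0 ≤ rem g p l v := sum_nonneg fun j _ => hp v j

omit [Fintype V] in
theorem le_rem {g : ℕ} {p : V → ℕ → ℝ} (hp : ∀ v j, 0 ≤ p v j) {l j : ℕ} (hl : l ≤ j)
    (hj : j < g) (v : V) : p v j ≤ rem g p l v :=
  single_le_sum (f := fun j => p v j) (fun i _ => hp v i) (mem_Ico.2 ⟨hl, hj⟩)

omit [Fintype V] in
theorem rem_succ {g : ℕ} {p : V → ℕ → ℝ} {l : ℕ} (hl : l < g) (v : V) :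
    rem g p l v = p v l + rem g p (l + 1) v := sum_eq_sum_Ico_succ_bot hl _

omit [Fintype V] in
theorem cf_abs {g : ℕ} {p : V → ℕ → ℝ} (hp : ∀ v j, 0 ≤ p v j) (l j : ℕ) (hj : j < g) (v : V) :
    |cf g p l j v| ≤ 1 := by
  unfold cf
  split_ifs with h1 h2
  · norm_num
  · rw [abs_div, abs_of_nonneg (hp v j), abs_of_nonneg (rem_nonneg hp _ _)]
    exact div_le_one_of_le₀ (le_rem hp h2 hj v) (rem_nonneg hp _ _)
  · norm_num

/-- one step: split the rest -/
theorem stepM {m g : ℕ} (hm : 0 < m) (side : V → ι) (w : Fin m → V → ℝ) (W : Fin m → ι → ℝ)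
    (hW0 : ∀ k i, 0 ≤ W k i) (hW : ∀ k v, |w k v| ≤ W k (side v)) (p : V → ℕ → ℝ)
    (hp : ∀ v j, 0 ≤ p v j) (a : κ → V → ℝ)
    (Sp Mu Λ : ℝ) (hSp0 : 0 ≤ Sp) (hMu0 : 0 ≤ Mu)
    (hSp : ∀ q, ((univ.filter fun v => a q v ≠ 0).card : ℝ) ≤ Sp)
    (hMu : ∀ v, ((univ.filter fun q => a q v ≠ 0).card : ℝ) ≤ Mu) (hΛ : 0 ≤ Λ)
    (hL : 32 * Real.exp (-Λ) * (Sp + 1) * (4 * (m * g) * (g * Mu) + 1) ≤ 1) (J : ℕ)
    (hJ : ∀ i, (univ.filter fun v => side v = i).card < 2 ^ J) (l : ℕ) (hl : l < g) (L : V → ℕ)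
    (hLl : ∀ v, L v ≤ l) (hLr : ∀ v, L v = l → 0 < rem g p l v) :
    ∃ L' : V → ℕ, (∀ v, L' v ≤ l + 1) ∧ (∀ v, L' v = l + 1 → 0 < rem g p (l + 1) v) ∧
      (∀ v, L' v = l → 0 < p v l) ∧ (∀ v, L v ≠ l → L' v = L v) ∧ (∀ v, L v = l → l ≤ L' v) ∧
      (∀ i k j, j < g → |∑ v ∈ univ.filter (fun v => side v = i),
        (co g p L' (l + 1) j v - co g p L l j v) * w k v| ≤ m * g * W k i) ∧
      ∀ q j, j < g → |∑ v, a q v * (co g p L' (l + 1) j v - co g p L l j v)| ≤
        (J + 1) * (Real.sqrt (32 * (m * g) * Λ) + 1) * Real.sqrt (∑ v, a q v ^ 2) := by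
  have hmg : 0 < m * g := Nat.mul_pos hm (by omega)
  set ξ : V → ℝ := fun v => if L v = l then 2 * (p v l / rem g p l v) - 1 else 1 with hξd
  have hr0 := fun v => rem_nonneg (g := g) hp l v
  have hq0 : ∀ v, 0 ≤ p v l / rem g p l v := fun v => div_nonneg (hp v l) (hr0 v)
  have hq1 : ∀ v, p v l / rem g p l v ≤ 1 := fun v =>
    div_le_one_of_le₀ (le_rem hp le_rfl hl v) (hr0 v)
  have hξ : ∀ v, |ξ v| ≤ 1 := by
    intro v
    rw [hξd]
    show |if L v = l then 2 * (p v l / rem g p l v) - 1 else 1| ≤ 1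
    split_ifs
    · exact abs_le.2 ⟨by linarith [hq0 v], by linarith [hq1 v]⟩
    · norm_num
  -- functionals and tests
  set c : ℕ → V → ℝ := fun j v => ind L l v * cf g p l j v with hc
  have hc1 : ∀ j, j < g → ∀ v, |c j v| ≤ 1 := by
    intro j hj v
    rw [hc]
    show |ind L l v * cf g p l j v| ≤ 1
    rw [abs_mul]
    have h1 : |ind L l v| ≤ 1 := by
      unfold ind
      split_ifs <;> norm_num
    calc |ind L l v| * |cf g p l j v| ≤ 1 * 1 :=
          mul_le_mul h1 (cf_abs hp l j hj v) (abs_nonneg _) zero_le_one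
      _ = 1 := one_mul 1
  set w' : Fin (m * g) → V → ℝ := fun x v =>
    w (finProdFinEquiv.symm x).1 v * c ((finProdFinEquiv.symm x).2 : ℕ) v with hw'
  set W' : Fin (m * g) → ι → ℝ := fun x i => W (finProdFinEquiv.symm x).1 i with hW'
  set a' : κ × ULift.{u} (Fin g) → V → ℝ := fun x v => a x.1 v * c (x.2.down : ℕ) v with ha'
  obtain ⟨ζ, z1, z2, z3, z4⟩ := lab (m := m * g) hmg side w' W' (fun x i => hW0 _ i)
    (fun x v => by
      show |w (finProdFinEquiv.symm x).1 v * c ((finProdFinEquiv.symm x).2 : ℕ) v| ≤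
        W (finProdFinEquiv.symm x).1 (side v)
      rw [abs_mul]
      calc |w (finProdFinEquiv.symm x).1 v| * |c ((finProdFinEquiv.symm x).2 : ℕ) v|
          ≤ |w (finProdFinEquiv.symm x).1 v| * 1 :=
            mul_le_mul_of_nonneg_left (hc1 _ (Fin.is_lt _) v) (abs_nonneg _)
        _ ≤ _ := by rw [mul_one]; exact hW _ v) ξ hξ a' Sp (g * Mu) Λ hSp0
    (mul_nonneg (Nat.cast_nonneg _) hMu0)
    (fun x => by
      refine le_trans ?_ (hSp x.1)
      have : (univ.filter fun v => a' x v ≠ 0) ⊆ univ.filter fun v => a x.1 v ≠ 0 := by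
        intro v hv
        refine mem_filter.2 ⟨mem_univ _, fun h => (mem_filter.1 hv).2 ?_⟩
        show a x.1 v * c (x.2.down : ℕ) v = 0
        rw [h, zero_mul]
      exact_mod_cast card_le_card this)
    (fun v => by
      have h1 : (univ.filter fun x => a' x v ≠ 0) ⊆
          (univ.filter fun q => a q v ≠ 0) ×ˢ (univ : Finset (ULift.{u} (Fin g))) := by
        intro x hx
        refine mem_product.2 ⟨mem_filter.2 ⟨mem_univ _, fun h => (mem_filter.1 hx).2 ?_⟩, mem_univ _⟩
        show a x.1 v * c (x.2.down : ℕ) v = 0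
        rw [h, zero_mul]
      have h2 : ((univ.filter fun x => a' x v ≠ 0).card : ℝ) ≤
          ((univ.filter fun q => a q v ≠ 0).card : ℝ) * g := by
        have := card_le_card h1
        rw [card_product, card_univ, Fintype.card_ulift, Fintype.card_fin] at this
        exact_mod_cast this
      refine h2.trans ?_
      rw [mul_comm]
      exact mul_le_mul_of_nonneg_left (hMu v) (Nat.cast_nonneg _)) hΛ
    (by
      push_cast
      exact hL) J hJ
  set L' : V → ℕ := fun v => if L v = l then (if ζ v = 1 then l else l + 1) else L v with hL'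
  have hL'1 : ∀ v, L v = l → ζ v = 1 → L' v = l := fun v h h' => by
    rw [hL']; show (if L v = l then (if ζ v = 1 then l else l + 1) else L v) = l
    rw [if_pos h, if_pos h']
  have hL'2 : ∀ v, L v = l → ζ v = -1 → L' v = l + 1 := fun v h h' => by
    rw [hL']; show (if L v = l then (if ζ v = 1 then l else l + 1) else L v) = l + 1
    rw [if_pos h, if_neg (by rw [h']; norm_num)]
  have hL'3 : ∀ v, L v ≠ l → L' v = L v := fun v h => by
    rw [hL']; show (if L v = l then (if ζ v = 1 then l else l + 1) else L v) = L v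
    rw [if_neg h]
  have hξ1 : ∀ v, L v = l → ξ v = 2 * (p v l / rem g p l v) - 1 := fun v h => by
    rw [hξd]; show (if L v = l then 2 * (p v l / rem g p l v) - 1 else 1) = _
    rw [if_pos h]
  -- the key identity
  have key : ∀ j, j < g → ∀ v, co g p L' (l + 1) j v - co g p L l j v =
      (if j = l then 1 / 2 else if l < j then -(1 / 2) else 0) * (c j v * (ζ v - ξ v)) := by
    intro j hj v
    by_cases hv : L v = l
    · have hi : ind L l v = 1 := by unfold ind; rw [if_pos hv]
      have hrem : 0 < rem g p l v := hLr v hv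
      have hcj : c j v = cf g p l j v := by
        rw [hc]
        show ind L l v * cf g p l j v = _
        rw [hi, one_mul]
      rcases lt_trichotomy j l with hjl | hjl | hjl
      · have h1 : co g p L' (l + 1) j v = 0 := by
          unfold co
          rw [if_pos (by omega)]
          unfold ind
          rw [if_neg]
          rcases z1 v with h | h
          · rw [hL'1 v hv h]; omega
          · rw [hL'2 v hv h]; omega
        have h2 : co g p L l j v = 0 := by
          unfold co
          rw [if_pos hjl]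
          unfold ind
          rw [if_neg (by omega)]
        rw [h1, h2, if_neg (by omega), if_neg (by omega)]
        ring
      · subst hjl
        have h2 : co g p L j j v = p v j / rem g p j v := by
          unfold co
          rw [if_neg (lt_irrefl _), hi, one_mul]
        have h3 : c j v = 1 := by
          rw [hcj]
          unfold cf
          rw [if_pos rfl]
        have h1 : co g p L' (j + 1) j v = (1 + ζ v) / 2 := by
          unfold co
          rw [if_pos (Nat.lt_succ_self j)]
          unfold ind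
          rcases z1 v with h | h
          · rw [hL'1 v hv h, if_pos rfl, h]; norm_num
          · rw [hL'2 v hv h, if_neg (by omega), h]; norm_num
        rw [h1, h2, if_pos rfl, h3, hξ1 v hv]
        ring
      · have h2 : co g p L l j v = p v j / rem g p l v := by
          unfold co
          rw [if_neg (by omega), hi, one_mul]
        have h3 : c j v = p v j / rem g p (l + 1) v := by
          rw [hcj]
          unfold cf
          rw [if_neg (by omega), if_pos hjl]
        have h1 : co g p L' (l + 1) j v = (1 - ζ v) / 2 * (p v j / rem g p (l + 1) v) := by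
          unfold co
          rw [if_neg (by omega)]
          unfold ind
          rcases z1 v with h | h
          · rw [hL'1 v hv h, if_neg (by omega), h]; norm_num
          · rw [hL'2 v hv h, if_pos rfl, h]; norm_num
        rw [h1, h2, if_neg (by omega), if_pos hjl, h3, hξ1 v hv]
        rcases eq_or_lt_of_le (rem_nonneg (g := g) hp (l + 1) v) with h0 | h0
        · have h4 : p v j = 0 := by
            have := le_rem (g := g) hp (show l + 1 ≤ j by omega) hj v
            rw [← h0] at this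
            exact le_antisymm this (hp v j)
          rw [h4]
          simp
        · have h5 := rem_succ (g := g) (p := p) hl v
          have h6 : p v l / rem g p l v = 1 - rem g p (l + 1) v / rem g p l v := by
            field_simp
            linarith
          rw [h6]
          field_simp
          ring
    · have hi : ind L l v = 0 := by unfold ind; rw [if_neg hv]
      have hcj : c j v = 0 := by
        rw [hc]
        show ind L l v * cf g p l j v = _
        rw [hi, zero_mul]
      rw [hcj, zero_mul, mul_zero]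
      have hlt : L v < l := lt_of_le_of_ne (hLl v) hv
      have h7 := hL'3 v hv
      unfold co
      by_cases hjl : j < l
      · rw [if_pos (by omega), if_pos hjl]
        unfold ind
        rw [h7, sub_self]
      · by_cases hjl2 : j < l + 1
        · have : j = l := by omega
          subst this
          rw [if_pos hjl2, if_neg (lt_irrefl _), hi, zero_mul, sub_zero]
          unfold ind
          rw [if_neg (by rw [h7]; omega)]
        · rw [if_neg hjl2, if_neg hjl, hi, zero_mul, sub_zero]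
          unfold ind
          rw [if_neg (by rw [h7]; omega), zero_mul]
  have hcoef : ∀ j : ℕ, |(if j = l then (1 / 2 : ℝ) else if l < j then -(1 / 2) else 0)| ≤ 1 / 2 := by
    intro j
    split_ifs
    · norm_num
    · norm_num [abs_neg]
    · norm_num
  refine ⟨L', fun v => ?_, fun v hv => ?_, fun v hv => ?_, hL'3, fun v hv => ?_,
    fun i k j hj => ?_, fun q j hj => ?_⟩
  · by_cases h : L v = l
    · rcases z1 v with h' | h'
      · rw [hL'1 v h h']; omega
      · rw [hL'2 v h h']
    · rw [hL'3 v h]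
      exact (hLl v).trans (Nat.le_succ l)
  · by_cases h : L v = l
    · rcases z1 v with h' | h'
      · rw [hL'1 v h h'] at hv; omega
      · rcases eq_or_lt_of_le (rem_nonneg (g := g) hp (l + 1) v) with h0 | h0
        · exfalso
          have h5 := rem_succ (g := g) (p := p) hl v
          rw [← h0, add_zero] at h5
          have h8 : ξ v = 1 := by
            rw [hξ1 v h, ← h5, div_self (hLr v h).ne']
            norm_num
          have h9 := z2 v (by rw [h8]; norm_num)
          rw [h8, h'] at h9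
          norm_num at h9
        · exact h0
    · rw [hL'3 v h] at hv
      have := hLl v
      omega
  · by_cases h : L v = l
    · rcases z1 v with h' | h'
      · rcases eq_or_lt_of_le (hp v l) with h0 | h0
        · exfalso
          have h8 : ξ v = -1 := by
            rw [hξ1 v h, ← h0]
            simp
          have h9 := z2 v (by rw [h8]; norm_num)
          rw [h8, h'] at h9
          norm_num at h9
        · exact h0
      · rw [hL'2 v h h'] at hv; omega
    · rw [hL'3 v h] at hv
      exact absurd hv h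
  · rcases z1 v with h' | h'
    · rw [hL'1 v hv h']
    · rw [hL'2 v hv h']; omega
  · have h1 : ∑ v ∈ univ.filter (fun v => side v = i),
        (co g p L' (l + 1) j v - co g p L l j v) * w k v =
        (if j = l then 1 / 2 else if l < j then -(1 / 2) else 0) *
        ∑ v ∈ univ.filter (fun v => side v = i), (ζ v - ξ v) * (w k v * c j v) := by
      rw [mul_sum]
      refine sum_congr rfl fun v _ => ?_
      rw [key j hj v]
      ring
    rw [h1, abs_mul]
    have h2 := z3 i (finProdFinEquiv (k, ⟨j, hj⟩))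
    have h3 : ∑ v ∈ univ.filter (fun v => side v = i), (ζ v - ξ v) * w' (finProdFinEquiv (k, ⟨j, hj⟩)) v =
        ∑ v ∈ univ.filter (fun v => side v = i), (ζ v - ξ v) * (w k v * c j v) := by
      refine sum_congr rfl fun v _ => ?_
      rw [hw']
      show (ζ v - ξ v) * (w (finProdFinEquiv.symm (finProdFinEquiv (k, (⟨j, hj⟩ : Fin g)))).1 v *
        c ((finProdFinEquiv.symm (finProdFinEquiv (k, (⟨j, hj⟩ : Fin g)))).2 : ℕ) v) = _
      rw [Equiv.symm_apply_apply]
    have h4 : W' (finProdFinEquiv (k, ⟨j, hj⟩)) i = W k i := by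
      rw [hW']
      show W (finProdFinEquiv.symm (finProdFinEquiv (k, (⟨j, hj⟩ : Fin g)))).1 i = _
      rw [Equiv.symm_apply_apply]
    rw [h3, h4] at h2
    calc _ ≤ 1 / 2 * (2 * ((m * g : ℕ) : ℝ) * W k i) :=
          mul_le_mul (hcoef j) h2 (abs_nonneg _) (by norm_num)
      _ = _ := by push_cast; ring
  · have h1 : ∑ v, a q v * (co g p L' (l + 1) j v - co g p L l j v) =
        (if j = l then 1 / 2 else if l < j then -(1 / 2) else 0) *
        ∑ v, (a q v * c j v) * (ζ v - ξ v) := by
      rw [mul_sum]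
      refine sum_congr rfl fun v _ => ?_
      rw [key j hj v]
      ring
    rw [h1, abs_mul]
    have h2 := z4 (q, ⟨⟨j, hj⟩⟩)
    have h3 : Real.sqrt (∑ v, a' (q, ⟨⟨j, hj⟩⟩) v ^ 2) ≤ Real.sqrt (∑ v, a q v ^ 2) := by
      refine Real.sqrt_le_sqrt (sum_le_sum fun v _ => ?_)
      rw [ha']
      show (a q v * c j v) ^ 2 ≤ _
      rw [mul_pow]
      have h4 : c j v ^ 2 ≤ 1 := by
        rw [← sq_abs]
        exact pow_le_one₀ (abs_nonneg _) (hc1 j hj v)
      calc a q v ^ 2 * c j v ^ 2 ≤ a q v ^ 2 * 1 := mul_le_mul_of_nonneg_left h4 (sq_nonneg _)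
        _ = _ := mul_one _
    have h5 : (0 : ℝ) ≤ (J + 1) * (Real.sqrt (32 * ((m * g : ℕ) : ℝ) * Λ) + 1) := by positivity
    have h6 : |∑ v, (a q v * c j v) * (ζ v - ξ v)| ≤
        (J + 1) * (Real.sqrt (32 * ((m * g : ℕ) : ℝ) * Λ) + 1) * Real.sqrt (∑ v, a q v ^ 2) :=
      h2.trans (mul_le_mul_of_nonneg_left h3 h5)
    have h7 : (0 : ℝ) ≤ (J + 1) * (Real.sqrt (32 * ((m * g : ℕ) : ℝ) * Λ) + 1) *
        Real.sqrt (∑ v, a q v ^ 2) := mul_nonneg h5 (Real.sqrt_nonneg _)
    calc _ ≤ 1 / 2 * ((J + 1) * (Real.sqrt (32 * ((m * g : ℕ) : ℝ) * Λ) + 1) *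
          Real.sqrt (∑ v, a q v ^ 2)) := mul_le_mul (hcoef j) h6 (abs_nonneg _) (by norm_num)
      _ ≤ (J + 1) * (Real.sqrt (32 * ((m * g : ℕ) : ℝ) * Λ) + 1) *
          Real.sqrt (∑ v, a q v ^ 2) := by linarith
      _ = _ := by push_cast; ring

/-- all steps -/
theorem iterM {m g : ℕ} (hm : 0 < m) (side : V → ι) (w : Fin m → V → ℝ) (W : Fin m → ι → ℝ)
    (hW0 : ∀ k i, 0 ≤ W k i) (hW : ∀ k v, |w k v| ≤ W k (side v)) (p : V → ℕ → ℝ)
    (hp : ∀ v j, 0 ≤ p v j) (hp1 : ∀ v, ∑ j ∈ range g, p v j = 1) (a : κ → V → ℝ)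
    (Sp Mu Λ : ℝ) (hSp0 : 0 ≤ Sp) (hMu0 : 0 ≤ Mu)
    (hSp : ∀ q, ((univ.filter fun v => a q v ≠ 0).card : ℝ) ≤ Sp)
    (hMu : ∀ v, ((univ.filter fun q => a q v ≠ 0).card : ℝ) ≤ Mu) (hΛ : 0 ≤ Λ)
    (hL : 32 * Real.exp (-Λ) * (Sp + 1) * (4 * (m * g) * (g * Mu) + 1) ≤ 1) (J : ℕ)
    (hJ : ∀ i, (univ.filter fun v => side v = i).card < 2 ^ J) (l : ℕ) (hl : l ≤ g) :
    ∃ L : V → ℕ, (∀ v, L v ≤ l) ∧ (∀ v, L v = l → 0 < rem g p l v) ∧
      (∀ v, L v < l → 0 < p v (L v)) ∧
      (∀ i k j, j < g → |∑ v ∈ univ.filter (fun v => side v = i),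
        (co g p L l j v - p v j) * w k v| ≤ l * (m * g * W k i)) ∧
      ∀ q j, j < g → |∑ v, a q v * (co g p L l j v - p v j)| ≤
        l * ((J + 1) * (Real.sqrt (32 * (m * g) * Λ) + 1) * Real.sqrt (∑ v, a q v ^ 2)) := by
  induction l with
  | zero =>
    have h1 : ∀ v, rem g p 0 v = 1 := by
      intro v
      rw [← hp1 v, rem, range_eq_Ico]
    have h2 : ∀ j v, co g p (fun _ => 0) 0 j v = p v j := by
      intro j v
      unfold co ind
      rw [if_neg (Nat.not_lt_zero j), if_pos rfl, h1, div_one, one_mul]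
    refine ⟨fun _ => 0, fun v => le_rfl, fun v _ => by rw [h1]; exact one_pos,
      fun v h => absurd h (lt_irrefl _), fun i k j _ => ?_, fun q j _ => ?_⟩
    · simp [h2]
    · simp [h2]
  | succ l ih =>
    obtain ⟨L, e1, e2, e3, e4, e5⟩ := ih (by omega)
    obtain ⟨L', f1, f2, f3, f4, f5, f6, f7⟩ := stepM hm side w W hW0 hW p hp a Sp Mu Λ hSp0 hMu0
      hSp hMu hΛ hL J hJ l (by omega) L e1 e2
    refine ⟨L', f1, f2, fun v hv => ?_, fun i k j hj => ?_, fun q j hj => ?_⟩
    · by_cases h : L v = l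
      · have h1 := f5 v h
        have h2 : L' v = l := by omega
        rw [h2]
        exact f3 v h2
      · rw [f4 v h]
        exact e3 v (lt_of_le_of_ne (e1 v) h)
    · have h1 : ∑ v ∈ univ.filter (fun v => side v = i), (co g p L' (l + 1) j v - p v j) * w k v =
          ∑ v ∈ univ.filter (fun v => side v = i),
            (co g p L' (l + 1) j v - co g p L l j v) * w k v +
          ∑ v ∈ univ.filter (fun v => side v = i), (co g p L l j v - p v j) * w k v := by
        rw [← sum_add_distrib]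
        exact sum_congr rfl fun v _ => by ring
      rw [h1]
      refine (abs_add_le _ _).trans ((add_le_add (f6 i k j hj) (e4 i k j hj)).trans (le_of_eq ?_))
      push_cast
      ring
    · have h1 : ∑ v, a q v * (co g p L' (l + 1) j v - p v j) =
          ∑ v, a q v * (co g p L' (l + 1) j v - co g p L l j v) +
          ∑ v, a q v * (co g p L l j v - p v j) := by
        rw [← sum_add_distrib]
        exact sum_congr rfl fun v _ => by ring
      rw [h1]
      refine (abs_add_le _ _).trans ((add_le_add (f7 q j hj) (e5 q j hj)).trans (le_of_eq ?_))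
      push_cast
      ring

/-- **LAB with several labels.** -/
theorem labM {m g : ℕ} (hm : 0 < m) (side : V → ι) (w : Fin m → V → ℝ) (W : Fin m → ι → ℝ)
    (hW0 : ∀ k i, 0 ≤ W k i) (hW : ∀ k v, |w k v| ≤ W k (side v)) (p : V → ℕ → ℝ)
    (hp : ∀ v j, 0 ≤ p v j) (hp1 : ∀ v, ∑ j ∈ range g, p v j = 1) (a : κ → V → ℝ)
    (Sp Mu Λ : ℝ) (hSp0 : 0 ≤ Sp) (hMu0 : 0 ≤ Mu)
    (hSp : ∀ q, ((univ.filter fun v => a q v ≠ 0).card : ℝ) ≤ Sp)
    (hMu : ∀ v, ((univ.filter fun q => a q v ≠ 0).card : ℝ) ≤ Mu) (hΛ : 0 ≤ Λ)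
    (hL : 32 * Real.exp (-Λ) * (Sp + 1) * (4 * (m * g) * (g * Mu) + 1) ≤ 1) (J : ℕ)
    (hJ : ∀ i, (univ.filter fun v => side v = i).card < 2 ^ J) :
    ∃ L : V → ℕ, (∀ v, L v < g) ∧ (∀ v, 0 < p v (L v)) ∧
      (∀ i k j, j < g → |∑ v ∈ univ.filter (fun v => side v = i),
        ((if L v = j then 1 else 0) - p v j) * w k v| ≤ g * (m * g * W k i)) ∧
      ∀ q j, j < g → |∑ v, a q v * ((if L v = j then 1 else 0) - p v j)| ≤
        g * ((J + 1) * (Real.sqrt (32 * (m * g) * Λ) + 1) * Real.sqrt (∑ v, a q v ^ 2)) := by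
  obtain ⟨L, e1, e2, e3, e4, e5⟩ := iterM hm side w W hW0 hW p hp hp1 a Sp Mu Λ hSp0 hMu0
      hSp hMu hΛ hL J hJ g le_rfl
  have h1 : ∀ v, L v < g := by
    intro v
    refine lt_of_le_of_ne (e1 v) fun h => ?_
    have := e2 v h
    rw [rem, Ico_self, sum_empty] at this
    exact lt_irrefl _ this
  have h2 : ∀ j, j < g → ∀ v, co g p L g j v = if L v = j then 1 else 0 := by
    intro j hj v
    unfold co
    rw [if_pos hj]
    rfl
  refine ⟨L, h1, fun v => e3 v (h1 v), fun i k j hj => ?_, fun q j hj => ?_⟩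
  · have := e4 i k j hj
    simp only [h2 j hj] at this
    exact this
  · have := e5 q j hj
    simp only [h2 j hj] at this
    exact this

end Pool.Agent.Work.MP_db9399_lab.helper61
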