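import Pool.Agent.Work.MP_db9399_lab_helper61.Level

/-!
# MP_db9399, LAB: balanced and random-like labels (helper61)

`lab`: every fractional labelling `ξ : V → [-1, 1]` is rounded to `±1`, all functionals `w k` are
kept on every side up to `2 m max w`, and all test forms up to `(J + 1) (√(32 m Λ) + 1) |a|₂`, where
`2 ^ J` is larger than all sides.
-/

set_option autoImplicit false

namespace Pool.Agent.Work.MP_db9399_lab.helper61

open Finset Classical

universe u

variable {V ι κ : Type u} [Fintype V] [Fintype ι] [Fintype κ]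

theorem mem_bk {β : Type u} [Fintype β] (blk : V → β) (b : β) (v : V) :
    v ∈ bk blk b ↔ blk v = b := by
  simp [bk]

omit [Fintype ι] in
/-- many levels -/
theorem iter [Fintype ι] {m : ℕ} (hm : 0 < m) (side : V → ι) (w : Fin m → V → ℝ) (ξ : V → ℝ)
    (hξ : ∀ v, |ξ v| ≤ 1) (a : κ → V → ℝ) (Sp Mu Λ : ℝ) (hSp0 : 0 ≤ Sp)
    (hMu0 : 0 ≤ Mu) (hSp : ∀ q, ((univ.filter fun v => a q v ≠ 0).card : ℝ) ≤ Sp)
    (hMu : ∀ v, ((univ.filter fun q => a q v ≠ 0).card : ℝ) ≤ Mu) (hΛ : 0 ≤ Λ)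
    (hL : 32 * Real.exp (-Λ) * (Sp + 1) * (((4 * m : ℕ) : ℝ) * Mu + 1) ≤ 1) (N : ℕ)
    (hN : ∀ i, (bk side i).card ≤ N) (j : ℕ) :
    ∃ ζ : V → ℝ, (∀ v, |ζ v| ≤ 1) ∧ (∀ v, |ξ v| = 1 → ζ v = ξ v) ∧
      (∀ i k, ∑ v ∈ bk side i, ζ v * w k v = ∑ v ∈ bk side i, ξ v * w k v) ∧
      (∀ i, (fr (bk side i) ζ).card ≤ m ∨ 2 ^ j * (fr (bk side i) ζ).card ≤ N) ∧
      ∀ q, |∑ v, a q v * (ζ v - ξ v)| ≤
        j * (nm (a q) * (Real.sqrt (8 * ((4 * m : ℕ) : ℝ) * Λ) + 1)) := by
  induction j with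
  | zero =>
    refine ⟨ξ, hξ, fun _ _ => rfl, fun _ _ => rfl, fun i => Or.inr ?_, fun q => by simp⟩
    rw [pow_zero, one_mul]
    exact (card_le_card (filter_subset _ _)).trans (hN i)
  | succ j ih =>
    obtain ⟨ζ, h1, h2, h3, h4, h5⟩ := ih
    -- the blocks
    have hidx : ∀ i, ∃ f : V → ℕ, (∀ v ∈ fr (bk side i) ζ, f v < (fr (bk side i) ζ).card) ∧
        ∀ v ∈ fr (bk side i) ζ, ∀ v' ∈ fr (bk side i) ζ, f v = f v' → v = v' := by
      intro i
      refine ⟨fun v => if h : v ∈ fr (bk side i) ζ then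
        ((fr (bk side i) ζ).equivFin ⟨v, h⟩ : ℕ) else 0, fun v hv => ?_, fun v hv v' hv' h => ?_⟩
      · simp only [dif_pos hv]
        exact Fin.is_lt _
      · simp only [dif_pos hv, dif_pos hv'] at h
        have := (fr (bk side i) ζ).equivFin.injective (Fin.ext h)
        exact congrArg Subtype.val this
    choose f hf1 hf2 using hidx
    have h4m : 0 < 4 * m := by omega
    set g : V → ℕ := fun v => if v ∈ fr (bk side (side v)) ζ then f (side v) v / (4 * m) else 0
      with hg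
    have hgN : ∀ v, g v < N + 1 := by
      intro v
      rw [hg]
      show (if v ∈ fr (bk side (side v)) ζ then f (side v) v / (4 * m) else 0) < N + 1
      split_ifs with h
      · have h6 := hf1 (side v) v h
        have h7 : (fr (bk side (side v)) ζ).card ≤ N :=
          (card_le_card (filter_subset _ _)).trans (hN _)
        have h8 := Nat.div_le_self (f (side v) v) (4 * m)
        omega
      · omega
    set blk : V → ι × ULift.{u} (Fin (N + 1)) := fun v => (side v, ⟨⟨g v, hgN v⟩⟩) with hblk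
    have hbk : ∀ i t v, v ∈ bk blk (i, ⟨t⟩) ↔ side v = i ∧ g v = (t : ℕ) := by
      intro i t v
      rw [mem_bk, hblk]
      simp only [Prod.mk.injEq, ULift.up.injEq, Fin.ext_iff]
    have hfrb : ∀ i t v, v ∈ fr (bk blk (i, ⟨t⟩)) ζ →
        v ∈ fr (bk side i) ζ ∧ f i v / (4 * m) = (t : ℕ) := by
      intro i t v hv
      obtain ⟨h6, h7⟩ := mem_filter.1 hv
      obtain ⟨h8, h9⟩ := (hbk i t v).1 h6
      subst h8
      have h10 : v ∈ fr (bk side (side v)) ζ :=
        mem_filter.2 ⟨mem_filter.2 ⟨mem_univ _, rfl⟩, h7⟩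
      refine ⟨h10, ?_⟩
      rw [hg] at h9
      simpa [h10] using h9
    have hs : ∀ b, (fr (bk blk b) ζ).card ≤ 4 * m := by
      rintro ⟨i, ⟨t⟩⟩
      have h6 : (fr (bk blk (i, ⟨t⟩)) ζ).card ≤ (Ico (4 * m * t) (4 * m * t + 4 * m)).card := by
        refine card_le_card_of_injOn (f i) (fun v hv => ?_) (fun v hv v' hv' h => ?_)
        · have h7 := (hfrb i t v (mem_coe.1 hv)).2
          rw [coe_Ico, Set.mem_Ico]
          have h8 := Nat.div_add_mod (f i v) (4 * m)
          have h9 := Nat.mod_lt (f i v) h4m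
          rw [h7] at h8
          omega
        · exact hf2 i v (hfrb i t v (mem_coe.1 hv)).1 v' (hfrb i t v' (mem_coe.1 hv')).1 h
      rw [Nat.card_Ico] at h6
      omega
    obtain ⟨η, g1, g2, g3, g4, g5⟩ := level blk w ζ h1 (4 * m) hs a Sp Mu Λ hSp0 hMu0 hSp hMu hΛ hL
    -- fractional vertices stay fractional
    have hsub : ∀ i, fr (bk side i) η ⊆ fr (bk side i) ζ := by
      intro i v hv
      obtain ⟨h6, h7⟩ := mem_filter.1 hv
      refine mem_filter.2 ⟨h6, ?_⟩
      by_contra h8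
      have h9 : |ζ v| = 1 := le_antisymm (h1 v) (not_lt.1 h8)
      rw [g2 v h9, h9] at h7
      exact lt_irrefl _ h7
    refine ⟨η, g1, fun v hv => ?_, fun i k => ?_, fun i => ?_, fun q => ?_⟩
    · rw [g2 v (by rw [h2 v hv, hv]), h2 v hv]
    · rw [← h3 i k]
      have h6 : ∀ F : V → ℝ, ∑ v ∈ bk side i, F v =
          ∑ t : Fin (N + 1), ∑ v ∈ bk blk (i, ⟨t⟩), F v := by
        intro F
        rw [← sum_fiberwise (s := bk side i) (g := fun v => (⟨g v, hgN v⟩ : Fin (N + 1)))]
        refine sum_congr rfl fun t _ => ?_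
        refine sum_congr ?_ fun _ _ => rfl
        ext v
        rw [hbk, mem_filter, bk, mem_filter, Fin.ext_iff]
        simp
      rw [h6, h6]
      exact sum_congr rfl fun t _ => g3 (i, ⟨t⟩) k
    · set F := (fr (bk side i) ζ).card with hF
      have hF' : (fr (bk side i) η).card ≤ m * ((F - 1) / (4 * m) + 1) := by
        have h6 : fr (bk side i) η ⊆ ((univ : Finset (Fin (N + 1))).filter
            fun t : Fin (N + 1) => (t : ℕ) ≤ (F - 1) / (4 * m)).biUnion
              fun t => fr (bk blk (i, ⟨t⟩)) η := by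
          intro v hv
          have h7 := hsub i hv
          obtain ⟨h8, h9⟩ := mem_filter.1 hv
          have h10 : side v = i := (mem_filter.1 h8).2
          have h11 : v ∈ fr (bk side (side v)) ζ := by rw [h10]; exact h7
          refine mem_biUnion.2 ⟨⟨g v, hgN v⟩, mem_filter.2 ⟨mem_univ _, ?_⟩,
            mem_filter.2 ⟨(hbk i _ v).2 ⟨h10, rfl⟩, h9⟩⟩
          show g v ≤ _
          have h12 : g v = f i v / (4 * m) := by
            rw [hg]
            show (if v ∈ fr (bk side (side v)) ζ then f (side v) v / (4 * m) else 0) = _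
            rw [if_pos h11, h10]
          rw [h12]
          refine Nat.div_le_div_right ?_
          have := hf1 i v h7
          omega
        have h7 : ((univ : Finset (Fin (N + 1))).filter
            fun t : Fin (N + 1) => (t : ℕ) ≤ (F - 1) / (4 * m)).card ≤ (F - 1) / (4 * m) + 1 := by
          refine (card_le_card_of_injOn (t := range ((F - 1) / (4 * m) + 1))
            (fun t : Fin (N + 1) => (t : ℕ)) (fun t ht => ?_) (fun t _ t' _ h =>
              Fin.ext h)).trans (le_of_eq (card_range _))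
          rw [coe_range, Set.mem_Iio]
          have := (mem_filter.1 (mem_coe.1 ht)).2
          show (t : ℕ) < _
          omega
        calc (fr (bk side i) η).card ≤ _ := card_le_card h6
          _ ≤ ∑ t ∈ (univ : Finset (Fin (N + 1))).filter
            (fun t : Fin (N + 1) => (t : ℕ) ≤ (F - 1) / (4 * m)), (fr (bk blk (i, ⟨t⟩)) η).card :=
              card_biUnion_le
          _ ≤ ∑ t ∈ (univ : Finset (Fin (N + 1))).filter
            (fun t : Fin (N + 1) => (t : ℕ) ≤ (F - 1) / (4 * m)), m :=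
              sum_le_sum fun t _ => g4 (i, ⟨t⟩)
          _ = ((univ : Finset (Fin (N + 1))).filter
            fun t : Fin (N + 1) => (t : ℕ) ≤ (F - 1) / (4 * m)).card * m := by
              rw [sum_const, smul_eq_mul]
          _ ≤ ((F - 1) / (4 * m) + 1) * m := Nat.mul_le_mul_right _ h7
          _ = _ := by ring
      by_cases hFm : F ≤ m
      · exact Or.inl ((card_le_card (hsub i)).trans hFm)
      by_cases hF4 : F ≤ 4 * m
      · left
        have h6 : (F - 1) / (4 * m) = 0 := Nat.div_eq_of_lt (by omega)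
        rw [h6] at hF'
        omega
      · right
        have h6 : 2 ^ j * F ≤ N := (h4 i).resolve_left hFm
        have h7 : 2 * (fr (bk side i) η).card ≤ F := by
          have h8 : 4 * m * ((F - 1) / (4 * m)) ≤ F - 1 := Nat.mul_div_le _ _
          have h9 : 4 * (m * ((F - 1) / (4 * m) + 1)) = 4 * m * ((F - 1) / (4 * m)) + 4 * m := by
            ring
          omega
        calc 2 ^ (j + 1) * (fr (bk side i) η).card = 2 ^ j * (2 * (fr (bk side i) η).card) := by ring
          _ ≤ 2 ^ j * F := Nat.mul_le_mul_left _ h7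
          _ ≤ N := h6
    · have h6 : ∑ v, a q v * (η v - ξ v) = ∑ v, a q v * (η v - ζ v) + ∑ v, a q v * (ζ v - ξ v) := by
        rw [← sum_add_distrib]
        exact sum_congr rfl fun v _ => by ring
      rw [h6]
      refine (abs_add_le _ _).trans ((add_le_add (g5 q) (h5 q)).trans (le_of_eq ?_))
      push_cast
      ring

/-- **LAB.** -/
theorem lab {m : ℕ} (hm : 0 < m) (side : V → ι) (w : Fin m → V → ℝ) (W : Fin m → ι → ℝ)
    (hW0 : ∀ k i, 0 ≤ W k i) (hW : ∀ k v, |w k v| ≤ W k (side v)) (ξ : V → ℝ) (hξ : ∀ v, |ξ v| ≤ 1) (a : κ → V → ℝ)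
    (Sp Mu Λ : ℝ) (hSp0 : 0 ≤ Sp) (hMu0 : 0 ≤ Mu)
    (hSp : ∀ q, ((univ.filter fun v => a q v ≠ 0).card : ℝ) ≤ Sp)
    (hMu : ∀ v, ((univ.filter fun q => a q v ≠ 0).card : ℝ) ≤ Mu) (hΛ : 0 ≤ Λ)
    (hL : 32 * Real.exp (-Λ) * (Sp + 1) * (4 * m * Mu + 1) ≤ 1) (J : ℕ)
    (hJ : ∀ i, (univ.filter fun v => side v = i).card < 2 ^ J) :
    ∃ ζ : V → ℝ, (∀ v, ζ v = 1 ∨ ζ v = -1) ∧ (∀ v, |ξ v| = 1 → ζ v = ξ v) ∧
      (∀ i k, |∑ v ∈ univ.filter (fun v => side v = i), (ζ v - ξ v) * w k v| ≤ 2 * m * W k i) ∧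
      ∀ q, |∑ v, a q v * (ζ v - ξ v)| ≤
        (J + 1) * (Real.sqrt (32 * m * Λ) + 1) * Real.sqrt (∑ v, a q v ^ 2) := by
  have hL' : 32 * Real.exp (-Λ) * (Sp + 1) * (((4 * m : ℕ) : ℝ) * Mu + 1) ≤ 1 := by
    push_cast
    exact hL
  have h2J : 0 < 2 ^ J := by positivity
  obtain ⟨ζ, h1, h2, h3, h4, h5⟩ := iter hm side w ξ hξ a Sp Mu Λ hSp0 hMu0 hSp hMu hΛ hL'
    (2 ^ J - 1) (fun i => by
      have := hJ i
      show (univ.filter fun v => side v = i).card ≤ _
      omega) J
  have hs : ∀ i, (fr (bk side i) ζ).card ≤ m := by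
    intro i
    rcases h4 i with h | h
    · exact h
    · rcases Nat.eq_zero_or_pos (fr (bk side i) ζ).card with h0 | h0
      · rw [h0]
        exact Nat.zero_le _
      · exfalso
        have := Nat.le_mul_of_pos_right (2 ^ J) h0
        omega
  have hmMu : (m : ℝ) * Mu + 1 ≤ 4 * m * Mu + 1 := by
    have : 0 ≤ (m : ℝ) * Mu := mul_nonneg (Nat.cast_nonneg _) hMu0
    linarith
  obtain ⟨η, g1, g2, g3, g4, g5⟩ := level (m := 0) side (fun k => Fin.elim0 k) ζ h1 m hs a Sp Mu Λ
    hSp0 hMu0 hSp hMu hΛ (le_trans (mul_le_mul_of_nonneg_left hmMu (by positivity)) hL)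
  have hfull : ∀ v, |η v| = 1 := by
    intro v
    by_contra hne
    have h6 : v ∈ fr (bk side (side v)) η :=
      mem_filter.2 ⟨mem_filter.2 ⟨mem_univ _, rfl⟩, lt_of_le_of_ne (g1 v) hne⟩
    have h7 := card_pos.2 ⟨v, h6⟩
    have h8 := g4 (side v)
    omega
  refine ⟨η, fun v => ?_, fun v hv => ?_, fun i k => ?_, fun q => ?_⟩
  · have := hfull v
    rcases abs_choice (η v) with h | h
    · left
      rw [← h, this]
    · right
      rw [this] at h
      linarith
  · rw [g2 v (by rw [h2 v hv, hv]), h2 v hv]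
  · have h6 : ∑ v ∈ univ.filter (fun v => side v = i), (η v - ξ v) * w k v =
        ∑ v ∈ bk side i, (η v - ζ v) * w k v := by
      have h7 := h3 i k
      have h8 : ∑ v ∈ bk side i, (η v - ξ v) * w k v = ∑ v ∈ bk side i, (η v - ζ v) * w k v +
          (∑ v ∈ bk side i, ζ v * w k v - ∑ v ∈ bk side i, ξ v * w k v) := by
        rw [← sum_sub_distrib, ← sum_add_distrib]
        exact sum_congr rfl fun v _ => by ring
      rw [h7, sub_self, add_zero] at h8
      exact h8
    have h7 : ∑ v ∈ bk side i, (η v - ζ v) * w k v = ∑ v ∈ fr (bk side i) ζ, (η v - ζ v) * w k v := by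
      refine (sum_subset (filter_subset _ _) fun v hv hv' => ?_).symm
      have h8 : |ζ v| = 1 := by
        refine le_antisymm (h1 v) (not_lt.1 fun h => hv' (mem_filter.2 ⟨hv, h⟩))
      rw [g2 v h8, sub_self, zero_mul]
    rw [h6, h7]
    refine (abs_sum_le_sum_abs _ _).trans ?_
    have h9 : ∀ v ∈ fr (bk side i) ζ, |(η v - ζ v) * w k v| ≤ 2 * W k i := by
      intro v hv
      have h10 : side v = i := (mem_filter.1 (mem_filter.1 hv).1).2
      rw [abs_mul]
      have h11 := abs_le.1 (g1 v)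
      have h12 := abs_le.1 (h1 v)
      refine mul_le_mul (abs_le.2 ⟨by linarith, by linarith⟩) ?_ (abs_nonneg _) (by norm_num)
      rw [← h10]
      exact hW k v
    refine (sum_le_card_nsmul _ _ _ h9).trans ?_
    rw [nsmul_eq_mul]
    have h11 : ((fr (bk side i) ζ).card : ℝ) ≤ m := by exact_mod_cast hs i
    calc ((fr (bk side i) ζ).card : ℝ) * (2 * W k i) ≤ m * (2 * W k i) :=
          mul_le_mul_of_nonneg_right h11 (mul_nonneg zero_le_two (hW0 k i))
      _ = _ := by ring
  · have h6 : ∑ v, a q v * (η v - ξ v) = ∑ v, a q v * (η v - ζ v) + ∑ v, a q v * (ζ v - ξ v) := by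
      rw [← sum_add_distrib]
      exact sum_congr rfl fun v _ => by ring
    rw [h6]
    refine (abs_add_le _ _).trans ((add_le_add (g5 q) (h5 q)).trans ?_)
    have h7 : Real.sqrt (8 * m * Λ) ≤ Real.sqrt (32 * m * Λ) := by
      refine Real.sqrt_le_sqrt ?_
      have : 0 ≤ (m : ℝ) * Λ := mul_nonneg (Nat.cast_nonneg _) hΛ
      linarith
    have h8 : (8 : ℝ) * ((4 * m : ℕ) : ℝ) * Λ = 32 * m * Λ := by
      push_cast
      ring
    rw [h8]
    have h9 : nm (a q) * (Real.sqrt (8 * m * Λ) + 1) ≤ nm (a q) * (Real.sqrt (32 * m * Λ) + 1) :=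
      mul_le_mul_of_nonneg_left (by linarith) (nm_nonneg _)
    calc nm (a q) * (Real.sqrt (8 * m * Λ) + 1) +
        J * (nm (a q) * (Real.sqrt (32 * m * Λ) + 1)) ≤
          nm (a q) * (Real.sqrt (32 * m * Λ) + 1) +
          J * (nm (a q) * (Real.sqrt (32 * m * Λ) + 1)) := by linarith
      _ = (J + 1) * (Real.sqrt (32 * m * Λ) + 1) * nm (a q) := by ring
      _ = _ := rfl

end Pool.Agent.Work.MP_db9399_lab.helper61
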