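import Mathlib

/-!
# MP_db9399, LAB: rounding of fractional labels (helper61)

`round_dist`: a fractional labelling with values in `[-1, 1]` is a convex combination of labellings
with at most `m` fractional values on the block `B`, which keep `m` given functionals. `round_coin`:
the same with `M` equally likely outcomes and a small error of the mean.
-/

set_option autoImplicit false

namespace Pool.Agent.Work.MP_db9399_lab.helper61

open Finset Classical

universe u

variable {V : Type u}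

/-- the fractional vertices of `B` -/
noncomputable def fr (B : Finset V) (ξ : V → ℝ) : Finset V := B.filter fun v => |ξ v| < 1

/-- a valid outcome of the rounding in the block `B` -/
structure Out {m : ℕ} (B : Finset V) (w : Fin m → V → ℝ) (ξ ζ : V → ℝ) : Prop where
  bd : ∀ v, |ξ v| ≤ 1 → |ζ v| ≤ 1
  off : ∀ v, v ∉ fr B ξ → ζ v = ξ v
  sum : ∀ k, ∑ v ∈ B, ζ v * w k v = ∑ v ∈ B, ξ v * w k v

theorem Out.refl {m : ℕ} (B : Finset V) (w : Fin m → V → ℝ) (ξ : V → ℝ) : Out B w ξ ξ :=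
  ⟨fun _ h => h, fun _ _ => rfl, fun _ => rfl⟩

theorem Out.fr_sub {m : ℕ} {B : Finset V} {w : Fin m → V → ℝ} {ξ ζ : V → ℝ} (h : Out B w ξ ζ) :
    fr B ζ ⊆ fr B ξ := by
  intro v hv
  by_contra hn
  have := h.off v hn
  simp only [fr, mem_filter] at hv hn
  rw [this] at hv
  exact hn hv

theorem Out.trans {m : ℕ} {B : Finset V} {w : Fin m → V → ℝ} {ξ ζ η : V → ℝ} (h : Out B w ξ ζ)
    (h' : Out B w ζ η) : Out B w ξ η :=
  ⟨fun v hv => h'.bd v (h.bd v hv), fun v hv => by
    rw [h'.off v fun hn => hv (h.fr_sub hn), h.off v hv], fun k => (h'.sum k).trans (h.sum k)⟩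

/-- a direction in the kernel -/
theorem exists_dir {m : ℕ} (F : Finset V) (w : Fin m → V → ℝ) (hF : m < F.card) :
    ∃ u : V → ℝ, (∀ v, v ∉ F → u v = 0) ∧ (∃ v ∈ F, u v ≠ 0) ∧ ∀ k, ∑ v ∈ F, u v * w k v = 0 := by
  have h1 : ¬ LinearIndependent ℝ (fun v : F => fun k : Fin m => w k v) := by
    intro hl
    have := hl.fintype_card_le_finrank
    simp at this
    omega
  rw [Fintype.linearIndependent_iff] at h1
  push Not at h1
  obtain ⟨g, hg, v, hv⟩ := h1
  refine ⟨fun x => if h : x ∈ F then g ⟨x, h⟩ else 0, fun x hx => by simp [hx],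
    ⟨v, v.2, by simpa using hv⟩, fun k => ?_⟩
  have h2 := congrFun hg k
  simp only [Finset.sum_apply, Pi.smul_apply, smul_eq_mul, Pi.zero_apply] at h2
  rw [← h2, ← Finset.sum_coe_sort F]
  refine sum_congr rfl fun x _ => ?_
  simp

/-- move along a direction until a coordinate becomes `1` or `-1` -/
theorem move {m : ℕ} (B : Finset V) (w : Fin m → V → ℝ) (ξ u : V → ℝ)
    (hu0 : ∀ v, v ∉ fr B ξ → u v = 0) (hu1 : ∃ v ∈ fr B ξ, u v ≠ 0)
    (hu : ∀ k, ∑ v ∈ fr B ξ, u v * w k v = 0) :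
    ∃ t : ℝ, 0 < t ∧ Out B w ξ (fun v => ξ v + t * u v) ∧
      (fr B (fun v => ξ v + t * u v)).card < (fr B ξ).card := by
  set F' : Finset V := (fr B ξ).filter fun v => u v ≠ 0 with hF'
  have hne : F'.Nonempty := by
    obtain ⟨v, hv, hv'⟩ := hu1
    exact ⟨v, mem_filter.2 ⟨hv, hv'⟩⟩
  set τ : V → ℝ := fun v => (|u v| - ξ v * u v) / u v ^ 2 with hτ
  have hτp : ∀ v ∈ F', 0 < τ v := by
    intro v hv
    obtain ⟨h1, h2⟩ := mem_filter.1 hv
    have h3 : |ξ v| < 1 := (mem_filter.1 h1).2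
    have h4 : 0 < |u v| := abs_pos.2 h2
    refine div_pos ?_ (by positivity)
    have h5 : ξ v * u v ≤ |ξ v| * |u v| := by rw [← abs_mul]; exact le_abs_self _
    nlinarith
  obtain ⟨v0, hv0, hmin⟩ := exists_min_image F' τ hne
  set t := τ v0 with ht
  have htp : 0 < t := hτp v0 hv0
  have hle : ∀ v ∈ F', ∀ s : ℝ, 0 ≤ s → s ≤ τ v → |ξ v + s * u v| ≤ 1 := by
    intro v hv s hs hst
    obtain ⟨h1, h2⟩ := mem_filter.1 hv
    have h3 : |ξ v| < 1 := (mem_filter.1 h1).2
    have h4 : 0 < |u v| := abs_pos.2 h2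
    have h6 : 0 < u v ^ 2 := by positivity
    have h5 : s * u v ^ 2 ≤ |u v| - ξ v * u v := by
      rw [hτ] at hst
      exact (le_div_iff₀ h6).1 hst
    obtain ⟨h7, h8⟩ := abs_lt.1 h3
    rcases lt_or_gt_of_ne h2 with hneg | hpos
    · rw [abs_of_neg hneg] at h5
      have h9 : -(s * u v) ≤ 1 + ξ v := by
        have : s * u v ^ 2 ≤ (-u v) * (1 + ξ v) := by nlinarith
        have h10 : (-u v) * (-(s * u v)) ≤ (-u v) * (1 + ξ v) := by nlinarith
        exact le_of_mul_le_mul_left h10 (by linarith)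
      have h11 : s * u v ≤ 0 := mul_nonpos_of_nonneg_of_nonpos hs hneg.le
      exact abs_le.2 ⟨by linarith, by linarith⟩
    · rw [abs_of_pos hpos] at h5
      have h9 : s * u v ≤ 1 - ξ v := by
        have h10 : u v * (s * u v) ≤ u v * (1 - ξ v) := by nlinarith
        exact le_of_mul_le_mul_left h10 hpos
      have h11 : 0 ≤ s * u v := mul_nonneg hs hpos.le
      exact abs_le.2 ⟨by linarith, by linarith⟩
  have heq : |ξ v0 + t * u v0| = 1 := by
    obtain ⟨h1, h2⟩ := mem_filter.1 hv0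
    have h6 : 0 < u v0 ^ 2 := by positivity
    have h5 : t * u v0 ^ 2 = |u v0| - ξ v0 * u v0 := by
      rw [ht, hτ]
      exact div_mul_cancel₀ _ h6.ne'
    rcases lt_or_gt_of_ne h2 with hneg | hpos
    · rw [abs_of_neg hneg] at h5
      have h7 : u v0 * (ξ v0 + t * u v0) = u v0 * (-1) := by nlinarith
      rw [mul_left_cancel₀ h2 h7]
      norm_num
    · rw [abs_of_pos hpos] at h5
      have h7 : u v0 * (ξ v0 + t * u v0) = u v0 * 1 := by nlinarith
      rw [mul_left_cancel₀ h2 h7]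
      norm_num
  have hO : Out B w ξ (fun v => ξ v + t * u v) := by
    refine ⟨fun v hv => ?_, fun v hv => by simp [hu0 v hv], fun k => ?_⟩
    · by_cases h1 : v ∈ F'
      · exact hle v h1 t htp.le (hmin v h1)
      · have h2 : u v = 0 := by
          by_cases h3 : v ∈ fr B ξ
          · by_contra h4
            exact h1 (mem_filter.2 ⟨h3, h4⟩)
          · exact hu0 v h3
        simpa [h2] using hv
    · have h1 : ∑ v ∈ B, (ξ v + t * u v) * w k v =
          ∑ v ∈ B, ξ v * w k v + t * ∑ v ∈ B, u v * w k v := by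
        rw [mul_sum, ← sum_add_distrib]
        exact sum_congr rfl fun v _ => by ring
      have h2 : ∑ v ∈ B, u v * w k v = ∑ v ∈ fr B ξ, u v * w k v := by
        refine (sum_subset (filter_subset _ _) fun v _ hv => ?_).symm
        rw [hu0 v hv, zero_mul]
      rw [h1, h2, hu k, mul_zero, add_zero]
  refine ⟨t, htp, hO, card_lt_card ⟨hO.fr_sub, fun hs => ?_⟩⟩
  have h1 := hs (mem_filter.1 hv0).1
  simp only [fr, mem_filter] at h1
  rw [heq] at h1
  exact lt_irrefl _ h1.2

/-- a finite distribution on valid outcomes with at most `m` fractional values, mean `ξ` -/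
theorem round_dist {m : ℕ} (B : Finset V) (w : Fin m → V → ℝ) (n : ℕ) :
    ∀ ξ : V → ℝ, (fr B ξ).card ≤ n → ∃ (lam : Fin (2 ^ n) → ℝ) (ζ : Fin (2 ^ n) → V → ℝ),
      (∀ i, 0 ≤ lam i) ∧ ∑ i, lam i = 1 ∧ (∀ i, Out B w ξ (ζ i)) ∧
      (∀ i, (fr B (ζ i)).card ≤ m) ∧ ∀ v, ∑ i, lam i * ζ i v = ξ v := by
  induction n with
  | zero =>
    intro ξ hξ
    refine ⟨fun _ => 1, fun _ => ξ, fun _ => zero_le_one, by simp, fun _ => Out.refl B w ξ,
      fun _ => hξ.trans (Nat.zero_le m), fun v => by simp⟩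
  | succ n ih =>
    intro ξ hξ
    -- two halves
    have key : ∀ (a b : ℝ) (ξ1 ξ2 : V → ℝ), 0 ≤ a → 0 ≤ b → a + b = 1 →
        Out B w ξ ξ1 → Out B w ξ ξ2 → (fr B ξ1).card ≤ n → (fr B ξ2).card ≤ n →
        (∀ v, a * ξ1 v + b * ξ2 v = ξ v) →
        ∃ (lam : Fin (2 ^ (n + 1)) → ℝ) (ζ : Fin (2 ^ (n + 1)) → V → ℝ),
        (∀ i, 0 ≤ lam i) ∧ ∑ i, lam i = 1 ∧ (∀ i, Out B w ξ (ζ i)) ∧
        (∀ i, (fr B (ζ i)).card ≤ m) ∧ ∀ v, ∑ i, lam i * ζ i v = ξ v := by
      intro a b ξ1 ξ2 ha hb hab h1 h2 hc1 hc2 hm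
      obtain ⟨l1, z1, p1, q1, r1, s1, t1⟩ := ih ξ1 hc1
      obtain ⟨l2, z2, p2, q2, r2, s2, t2⟩ := ih ξ2 hc2
      have hN : 2 ^ (n + 1) = 2 ^ n + 2 ^ n := by ring
      have e : Fin (2 ^ (n + 1)) ≃ Fin (2 ^ n) ⊕ Fin (2 ^ n) :=
        (finCongr hN).trans finSumFinEquiv.symm
      refine ⟨fun i => Sum.elim (fun j => a * l1 j) (fun j => b * l2 j) (e i),
        fun i => Sum.elim z1 z2 (e i), fun i => ?_, ?_, fun i => ?_, fun i => ?_, fun v => ?_⟩
      · show 0 ≤ Sum.elim (fun j => a * l1 j) (fun j => b * l2 j) (e i)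
        generalize e i = x
        rcases x with j | j
        · exact mul_nonneg ha (p1 j)
        · exact mul_nonneg hb (p2 j)
      · rw [Equiv.sum_comp e (fun x => Sum.elim (fun j => a * l1 j) (fun j => b * l2 j) x),
          Fintype.sum_sum_type]
        simp only [Sum.elim_inl, Sum.elim_inr, ← mul_sum, q1, q2, mul_one, hab]
      · show Out B w ξ (Sum.elim z1 z2 (e i))
        generalize e i = x
        rcases x with j | j
        · exact h1.trans (r1 j)
        · exact h2.trans (r2 j)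
      · show (fr B (Sum.elim z1 z2 (e i))).card ≤ m
        generalize e i = x
        rcases x with j | j
        · exact s1 j
        · exact s2 j
      · rw [Equiv.sum_comp e (fun x => Sum.elim (fun j => a * l1 j) (fun j => b * l2 j) x *
          Sum.elim z1 z2 x v), Fintype.sum_sum_type]
        simp only [Sum.elim_inl, Sum.elim_inr, mul_assoc, ← mul_sum, t1, t2, hm]
    by_cases hm : (fr B ξ).card ≤ m
    · by_cases hn : (fr B ξ).card ≤ n
      · exact key 1 0 ξ ξ zero_le_one le_rfl (by norm_num) (Out.refl B w ξ) (Out.refl B w ξ) hn hn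
          (fun v => by ring)
      · refine ⟨fun i => if (i : ℕ) = 0 then 1 else 0, fun _ => ξ, fun i => by
            show (0 : ℝ) ≤ if (i : ℕ) = 0 then 1 else 0
            split_ifs <;> norm_num,
          ?_, fun _ => Out.refl B w ξ, fun _ => hm, fun v => ?_⟩
        · rw [sum_eq_single (⟨0, by positivity⟩ : Fin (2 ^ (n + 1)))]
          · simp
          · intro i _ hi
            have : (i : ℕ) ≠ 0 := fun h => hi (Fin.ext h)
            simp [this]
          · simp
        · rw [sum_eq_single (⟨0, by positivity⟩ : Fin (2 ^ (n + 1)))]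
          · simp
          · intro i _ hi
            have : (i : ℕ) ≠ 0 := fun h => hi (Fin.ext h)
            simp [this]
          · simp
    · push Not at hm
      obtain ⟨u, hu0, hu1, hu⟩ := exists_dir (fr B ξ) w hm
      obtain ⟨t, ht, hO, hc⟩ := move B w ξ u hu0 hu1 hu
      obtain ⟨t', ht', hO', hc'⟩ := move B w ξ (fun v => -u v) (fun v hv => by simp [hu0 v hv])
        (by
          obtain ⟨v, hv, hv'⟩ := hu1
          exact ⟨v, hv, neg_ne_zero.2 hv'⟩) (fun k => by
          have := hu k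
          simp only [neg_mul, sum_neg_distrib, this, neg_zero])
      have hp : 0 < t + t' := by linarith
      refine key (t' / (t + t')) (t / (t + t')) _ _ (by positivity) (by positivity) ?_ hO hO'
        (by omega) (by omega) fun v => ?_
      · field_simp
        ring
      · field_simp
        ring

/-- `M` equally likely valid outcomes, small error of the mean -/
theorem round_coin {m : ℕ} (B : Finset V) (w : Fin m → V → ℝ) (ξ : V → ℝ) (n M : ℕ)
    (hn : (fr B ξ).card ≤ n) (hM : 0 < M) :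
    ∃ ζ : Fin M → V → ℝ, (∀ i, Out B w ξ (ζ i)) ∧ (∀ i, (fr B (ζ i)).card ≤ m) ∧
      ∀ v, |(∑ i, ζ i v) / M - ξ v| ≤ 2 * 2 ^ n / M := by
  have hNp : 0 < 2 ^ n := by positivity
  obtain ⟨N, hN, lam, z, p, q, r, s, t⟩ : ∃ N : ℕ, N = 2 ^ n ∧
      ∃ (lam : Fin N → ℝ) (ζ : Fin N → V → ℝ),
      (∀ i, 0 ≤ lam i) ∧ ∑ i, lam i = 1 ∧ (∀ i, Out B w ξ (ζ i)) ∧
      (∀ i, (fr B (ζ i)).card ≤ m) ∧ ∀ v, ∑ i, lam i * ζ i v = ξ v :=
    ⟨_, rfl, round_dist B w n ξ hn⟩
  rw [← hN] at hNp
  have hMr : (0 : ℝ) < M := by exact_mod_cast hM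
  -- counts
  set c : Fin N → ℕ := fun i => ⌊lam i * M⌋₊ with hc
  have hc1 : ∀ i, (c i : ℝ) ≤ lam i * M := fun i => Nat.floor_le (mul_nonneg (p i) hMr.le)
  have hc2 : ∀ i, lam i * M < c i + 1 := fun i => Nat.lt_floor_add_one _
  have hsum : ∑ i, c i ≤ M := by
    have : ((∑ i, c i : ℕ) : ℝ) ≤ M := by
      push_cast
      calc ∑ i, (c i : ℝ) ≤ ∑ i, lam i * M := sum_le_sum fun i _ => hc1 i
        _ = M := by rw [← sum_mul, q, one_mul]
    exact_mod_cast this
  -- an index function with fibres at least `c`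
  have hex : ∃ f : Fin M → Fin N, ∀ i, c i ≤ (univ.filter fun j => f j = i).card := by
    have e : (Σ i : Fin N, Fin (c i)) ↪ Fin M := by
      have h1 : Fintype.card (Σ i : Fin N, Fin (c i)) ≤ Fintype.card (Fin M) := by
        simpa using hsum
      exact (Function.Embedding.nonempty_of_card_le h1).some
    refine ⟨fun j => if h : ∃ x, e x = j then (Classical.choose h).1 else ⟨0, hNp⟩, fun i => ?_⟩
    have h2 : (univ.image fun k : Fin (c i) => e ⟨i, k⟩) ⊆ univ.filter fun j =>
        (if h : ∃ x, e x = j then (Classical.choose h).1 else (⟨0, hNp⟩ : Fin N)) = i := by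
      intro j hj
      obtain ⟨k, -, rfl⟩ := mem_image.1 hj
      refine mem_filter.2 ⟨mem_univ _, ?_⟩
      have h3 : ∃ x, e x = e ⟨i, k⟩ := ⟨_, rfl⟩
      rw [dif_pos h3]
      have h4 := e.injective (Classical.choose_spec h3)
      rw [h4]
    refine le_trans ?_ (card_le_card h2)
    rw [card_image_of_injective _ (fun a b hab => by
      have := e.injective hab
      simpa using this)]
    simp
  obtain ⟨f, hf⟩ := hex
  refine ⟨fun j => z (f j), fun j => r _, fun j => s _, fun v => ?_⟩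
  set g : Fin N → ℕ := fun i => (univ.filter fun j => f j = i).card with hg
  have hgs : ∑ i, (g i : ℝ) = M := by
    have h1 : ∑ i, g i = M := by
      have := card_eq_sum_card_fiberwise (s := (univ : Finset (Fin M))) (t := (univ : Finset (Fin N)))
        (f := f) (fun _ _ => mem_coe.2 (mem_univ _))
      simpa [hg] using this.symm
    exact_mod_cast h1
  have h1 : ∑ j, z (f j) v = ∑ i, (g i : ℝ) * z i v := by
    rw [← sum_fiberwise_of_maps_to (s := (univ : Finset (Fin M))) (t := (univ : Finset (Fin N)))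
      (g := f) (fun _ _ => mem_univ _)]
    refine sum_congr rfl fun i _ => ?_
    rw [sum_congr rfl (g := fun _ => z i v) fun j hj => by rw [(mem_filter.1 hj).2], sum_const,
      nsmul_eq_mul]
  have h2 : ξ v = ∑ i, lam i * z i v := (t v).symm
  by_cases hv : |ξ v| ≤ 1
  · have hz : ∀ i, |z i v| ≤ 1 := fun i => (r i).bd v hv
    have h3 : (∑ j, z (f j) v) / M - ξ v = (∑ i, ((g i : ℝ) - lam i * M) * z i v) / M := by
      rw [h1, h2, eq_div_iff hMr.ne', sub_mul, div_mul_cancel₀ _ hMr.ne', sum_mul,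
        ← sum_sub_distrib]
      exact sum_congr rfl fun i _ => by ring
    rw [h3, abs_div, abs_of_pos hMr]
    refine div_le_div_of_nonneg_right ?_ hMr.le
    have h4 : ∀ i, |((g i : ℝ) - lam i * M) * z i v| ≤ ((g i : ℝ) - lam i * M) + 2 := by
      intro i
      rw [abs_mul]
      have h5 : -1 ≤ (g i : ℝ) - lam i * M := by
        have : (c i : ℝ) ≤ g i := by exact_mod_cast hf i
        linarith [hc2 i]
      have h6 : |(g i : ℝ) - lam i * M| ≤ ((g i : ℝ) - lam i * M) + 2 :=
        abs_le.2 ⟨by linarith, by linarith⟩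
      calc |(g i : ℝ) - lam i * M| * |z i v| ≤ |(g i : ℝ) - lam i * M| * 1 :=
            mul_le_mul_of_nonneg_left (hz i) (abs_nonneg _)
        _ ≤ _ := by rw [mul_one]; exact h6
    calc |∑ i, ((g i : ℝ) - lam i * M) * z i v| ≤ ∑ i, |((g i : ℝ) - lam i * M) * z i v| :=
          abs_sum_le_sum_abs _ _
      _ ≤ ∑ i, (((g i : ℝ) - lam i * M) + 2) := sum_le_sum fun i _ => h4 i
      _ = 2 * 2 ^ n := by
          rw [sum_add_distrib, sum_sub_distrib, hgs, ← sum_mul, q]
          simp [hN]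
          ring
  · have hv' : v ∉ fr B ξ := fun h => hv (mem_filter.1 h).2.le
    have hz : ∀ i, z i v = ξ v := fun i => (r i).off v hv'
    simp only [hz, sum_const, card_univ, Fintype.card_fin, nsmul_eq_mul]
    rw [mul_div_cancel_left₀ _ hMr.ne', sub_self, abs_zero]
    positivity

end Pool.Agent.Work.MP_db9399_lab.helper61
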