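import Pool.Agent.Work.MP_db9399_lab_helper61.Core
import Pool.Agent.Work.MP_db9399_cg_helper68.TOOL
import Pool.Agent.Work.MP_db9399_ow_helper21.SYM
import Pool.Agent.Work.MP_db9399_all_helper6.LLLI

/-!
# MP_db9399, LAB: one level of the rounding (helper61)

Disjoint blocks with at most `s` fractional vertices each are rounded independently; local lemma
for the test forms.
-/

set_option autoImplicit false

namespace Pool.Agent.Work.MP_db9399_lab.helper61

open Finset Classical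
open Pool.Agent.Work.MP_db9399_all (pr DepOnI)
open Pool.Agent.Work.MP_db9399_en (ex)
open Pool.Agent.Work.MP_db9399_cg.helper68 (tail2 ex_coord pr_zero)

universe u

variable {V β κ : Type u} [Fintype V] [Fintype β] [Fintype κ]

/-- one block of vertices -/
noncomputable def bk (blk : V → β) (b : β) : Finset V := univ.filter fun v => blk v = b

/-- `ℓ²` norm -/
noncomputable def nm (a : V → ℝ) : ℝ := Real.sqrt (∑ v, a v ^ 2)

theorem nm_nonneg (a : V → ℝ) : 0 ≤ nm a := Real.sqrt_nonneg _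

theorem nm_sq (a : V → ℝ) : nm a ^ 2 = ∑ v, a v ^ 2 :=
  Real.sq_sqrt (sum_nonneg fun _ _ => sq_nonneg _)

/-- Cauchy-Schwarz with the support -/
theorem l1_le (a : V → ℝ) (S : ℝ) (hS : ((univ.filter fun v => a v ≠ 0).card : ℝ) ≤ S) :
    ∑ v, |a v| ≤ Real.sqrt S * nm a := by
  have h1 : ∑ v, |a v| = ∑ v ∈ univ.filter (fun v => a v ≠ 0), |a v| := by
    rw [sum_filter]
    refine sum_congr rfl fun v _ => ?_
    split_ifs with h
    · rfl
    · simp only [ne_eq, not_not] at h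
      rw [h, abs_zero]
  have h2 : (∑ v ∈ univ.filter (fun v => a v ≠ 0), |a v|) ^ 2 ≤ S * nm a ^ 2 := by
    refine sq_sum_le_card_mul_sum_sq.trans ?_
    rw [nm_sq]
    refine mul_le_mul hS ?_ (sum_nonneg fun v _ => sq_nonneg _) ((Nat.cast_nonneg _).trans hS)
    refine (sum_le_sum_of_subset_of_nonneg (subset_univ _) fun v _ _ => sq_nonneg _).trans
      (le_of_eq ?_)
    exact sum_congr rfl fun v _ => sq_abs _
  rw [h1]
  refine le_of_sq_le_sq ?_ (mul_nonneg (Real.sqrt_nonneg _) (nm_nonneg a))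
  rw [mul_pow, Real.sq_sqrt ((Nat.cast_nonneg _).trans hS)]
  exact h2

/-- **One level of the rounding.** -/
theorem level {m : ℕ} (blk : V → β) (w : Fin m → V → ℝ) (ξ : V → ℝ) (hξ : ∀ v, |ξ v| ≤ 1) (s : ℕ)
    (hs : ∀ b, (fr (bk blk b) ξ).card ≤ s) (a : κ → V → ℝ) (Sp Mu Λ : ℝ) (hSp0 : 0 ≤ Sp)
    (hMu0 : 0 ≤ Mu) (hSp : ∀ q, ((univ.filter fun v => a q v ≠ 0).card : ℝ) ≤ Sp)
    (hMu : ∀ v, ((univ.filter fun q => a q v ≠ 0).card : ℝ) ≤ Mu) (hΛ : 0 ≤ Λ)
    (hL : 32 * Real.exp (-Λ) * (Sp + 1) * (s * Mu + 1) ≤ 1) :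
    ∃ ζ : V → ℝ, (∀ v, |ζ v| ≤ 1) ∧ (∀ v, |ξ v| = 1 → ζ v = ξ v) ∧
      (∀ b k, ∑ v ∈ bk blk b, ζ v * w k v = ∑ v ∈ bk blk b, ξ v * w k v) ∧
      (∀ b, (fr (bk blk b) ζ).card ≤ m) ∧
      ∀ q, |∑ v, a q v * (ζ v - ξ v)| ≤ nm (a q) * (Real.sqrt (8 * s * Λ) + 1) := by
  obtain ⟨M, hM1⟩ : ∃ M : ℕ, 2 * 2 ^ s * Real.sqrt Sp ≤ M := exists_nat_ge _
  have hM : 0 < M + 1 := Nat.succ_pos M
  have hMr : (0 : ℝ) < ((M + 1 : ℕ) : ℝ) := by exact_mod_cast hM
  choose z hz1 hz2 hz3 using fun b => round_coin (bk blk b) w ξ s (M + 1) (hs b) hM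
  set ζ : (β → Fin (M + 1)) → V → ℝ := fun ω v => z (blk v) (ω (blk v)) v with hζ
  set μ : V → ℝ := fun v => (∑ i, z (blk v) i v) / ((M + 1 : ℕ) : ℝ) with hμ
  have hζ1 : ∀ ω v, |ζ ω v| ≤ 1 := fun ω v => (hz1 _ _).bd v (hξ v)
  have hz1' : ∀ b i v, |z b i v| ≤ 1 := fun b i v => (hz1 _ _).bd v (hξ v)
  have hμ1 : ∀ v, |μ v| ≤ 1 := by
    intro v
    rw [hμ]
    show |(∑ i, z (blk v) i v) / ((M + 1 : ℕ) : ℝ)| ≤ 1
    rw [abs_div, abs_of_pos hMr, div_le_one hMr]
    refine (abs_sum_le_sum_abs _ _).trans ((sum_le_sum fun i _ => hz1' _ i v).trans ?_)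
    simp
  have hfr : ∀ v, ¬ |ξ v| < 1 → v ∉ fr (bk blk (blk v)) ξ := fun v hv h => hv (mem_filter.1 h).2
  have hoff : ∀ ω v, ¬ |ξ v| < 1 → ζ ω v = ξ v := fun ω v hv => (hz1 _ _).off v (hfr v hv)
  have hμoff : ∀ v, ¬ |ξ v| < 1 → μ v = ξ v := by
    intro v hv
    rw [hμ]
    show (∑ i, z (blk v) i v) / ((M + 1 : ℕ) : ℝ) = ξ v
    rw [sum_congr rfl fun i _ => (hz1 (blk v) i).off v (hfr v hv)]
    simp only [sum_const, card_univ, Fintype.card_fin, nsmul_eq_mul]
    exact mul_div_cancel_left₀ _ hMr.ne'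
  have hmean : ∀ v, |μ v - ξ v| ≤ 2 * 2 ^ s / ((M + 1 : ℕ) : ℝ) := fun v => hz3 (blk v) v
  -- scopes
  set I : κ → Finset β := fun q => univ.filter fun b => ∃ v ∈ fr (bk blk b) ξ, a q v ≠ 0 with hI
  set c : κ → β → ℝ := fun q b => 2 * ∑ v ∈ fr (bk blk b) ξ, |a q v| with hc
  set X : κ → β → Fin (M + 1) → ℝ := fun q b i => ∑ v ∈ fr (bk blk b) ξ, a q v * (z b i v - μ v)
    with hX
  have hsum : ∀ q ω, ∑ v, a q v * (ζ ω v - μ v) = ∑ b ∈ I q, X q b (ω b) := by
    intro q ω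
    have h1 : ∑ v, a q v * (ζ ω v - μ v) = ∑ b, X q b (ω b) := by
      rw [← sum_fiberwise (s := (univ : Finset V)) (g := blk)]
      refine sum_congr rfl fun b _ => ?_
      rw [hX]
      show ∑ v ∈ bk blk b, a q v * (ζ ω v - μ v) = ∑ v ∈ fr (bk blk b) ξ, a q v * (z b (ω b) v - μ v)
      rw [← sum_subset (filter_subset _ _ : fr (bk blk b) ξ ⊆ bk blk b)]
      · refine sum_congr rfl fun v hv => ?_
        have h2 : blk v = b := (mem_filter.1 (mem_filter.1 hv).1).2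
        rw [hζ]
        show a q v * (z (blk v) (ω (blk v)) v - μ v) = _
        rw [h2]
      · intro v hv hv'
        have h2 : ¬ |ξ v| < 1 := fun h => hv' (mem_filter.2 ⟨hv, h⟩)
        rw [hoff ω v h2, hμoff v h2, sub_self, mul_zero]
    rw [h1]
    refine (sum_subset (subset_univ _) fun b _ hb => ?_).symm
    have h2 : ∀ v ∈ fr (bk blk b) ξ, a q v = 0 := by
      intro v hv
      by_contra hne
      exact hb (mem_filter.2 ⟨mem_univ _, v, hv, hne⟩)
    exact sum_eq_zero fun v hv => by rw [h2 v hv, zero_mul]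
  have hXc : ∀ q b i, |X q b i| ≤ c q b := by
    intro q b i
    refine (abs_sum_le_sum_abs _ _).trans ?_
    rw [hc]
    show _ ≤ 2 * ∑ v ∈ fr (bk blk b) ξ, |a q v|
    rw [mul_sum]
    refine sum_le_sum fun v _ => ?_
    rw [abs_mul, mul_comm]
    refine mul_le_mul_of_nonneg_right ?_ (abs_nonneg _)
    have h1 := abs_le.1 (hz1' b i v)
    have h2 := abs_le.1 (hμ1 v)
    exact abs_le.2 ⟨by linarith, by linarith⟩
  have hc0 : ∀ q, ∀ b ∈ I q, 0 < c q b := by
    intro q b hb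
    obtain ⟨v, hv, hne⟩ := (mem_filter.1 hb).2
    rw [hc]
    show 0 < 2 * ∑ v ∈ fr (bk blk b) ξ, |a q v|
    have : |a q v| ≤ ∑ v ∈ fr (bk blk b) ξ, |a q v| :=
      single_le_sum (fun x _ => abs_nonneg (a q x)) hv
    have := abs_pos.2 hne
    linarith
  have hX0 : ∀ q b, ∑ i, X q b i = 0 := by
    intro q b
    rw [hX]
    show ∑ i, ∑ v ∈ fr (bk blk b) ξ, a q v * (z b i v - μ v) = 0
    rw [sum_comm]
    refine sum_eq_zero fun v hv => ?_
    have h2 : blk v = b := (mem_filter.1 (mem_filter.1 hv).1).2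
    rw [← mul_sum, sum_sub_distrib]
    have h3 : ∑ i, z b i v = ((M + 1 : ℕ) : ℝ) * μ v := by
      rw [hμ]
      show _ = ((M + 1 : ℕ) : ℝ) * ((∑ i, z (blk v) i v) / ((M + 1 : ℕ) : ℝ))
      rw [mul_div_cancel₀ _ hMr.ne', h2]
    rw [h3]
    simp
  have hcs : ∀ q, ∑ b ∈ I q, c q b ^ 2 ≤ 4 * s * nm (a q) ^ 2 := by
    intro q
    have h1 : ∀ b, c q b ^ 2 ≤ 4 * s * ∑ v ∈ bk blk b, a q v ^ 2 := by
      intro b
      rw [hc]
      show (2 * ∑ v ∈ fr (bk blk b) ξ, |a q v|) ^ 2 ≤ _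
      have h2 : (∑ v ∈ fr (bk blk b) ξ, |a q v|) ^ 2 ≤ s * ∑ v ∈ bk blk b, a q v ^ 2 := by
        refine sq_sum_le_card_mul_sum_sq.trans ?_
        refine mul_le_mul (by exact_mod_cast hs b) ?_ (sum_nonneg fun v _ => sq_nonneg _)
          (Nat.cast_nonneg _)
        refine (sum_le_sum_of_subset_of_nonneg (filter_subset _ _) fun v _ _ =>
          sq_nonneg _).trans (le_of_eq (sum_congr rfl fun v _ => sq_abs _))
      rw [mul_pow]
      linarith
    calc ∑ b ∈ I q, c q b ^ 2 ≤ ∑ b, c q b ^ 2 :=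
          sum_le_sum_of_subset_of_nonneg (subset_univ _) fun b _ _ => sq_nonneg _
      _ ≤ ∑ b, 4 * s * ∑ v ∈ bk blk b, a q v ^ 2 := sum_le_sum fun b _ => h1 b
      _ = 4 * s * nm (a q) ^ 2 := by
          rw [← mul_sum, nm_sq]
          congr 1
          exact sum_fiberwise (s := (univ : Finset V)) (g := blk) (f := fun v => a q v ^ 2)
  -- the events
  have hpr : ∀ q, pr (fun ω : β → Fin (M + 1) => nm (a q) * Real.sqrt (8 * s * Λ) <
      |∑ v, a q v * (ζ ω v - μ v)|) ≤ 2 * Real.exp (-Λ) := by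
    intro q
    rcases (I q).eq_empty_or_nonempty with he | ⟨b0, hb0⟩
    · rw [pr_zero]
      · positivity
      · intro ω
        rw [hsum, he, sum_empty, abs_zero, not_lt]
        exact mul_nonneg (nm_nonneg _) (Real.sqrt_nonneg _)
    · obtain ⟨v0, hv0, hne⟩ := (mem_filter.1 hb0).2
      have hs0 : 0 < s := by
        have : 0 < (fr (bk blk b0) ξ).card := card_pos.2 ⟨v0, hv0⟩
        exact this.trans_le (hs b0)
      have hnm : 0 < nm (a q) ^ 2 := by
        rw [nm_sq]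
        have h1 : a q v0 ^ 2 ≤ ∑ v, a q v ^ 2 :=
          single_le_sum (f := fun v => a q v ^ 2) (fun x _ => sq_nonneg _) (mem_univ v0)
        have h2 : 0 < a q v0 ^ 2 := by positivity
        linarith
      have hs0' : (0 : ℝ) < s := by exact_mod_cast hs0
      have hS : 0 < 4 * s * nm (a q) ^ 2 := by positivity
      have key := tail2 (J := β) (M := M + 1) hM (fun _ : β => (0 : ℝ)) (I q) (fun b => {b})
        (fun _ => ∅) (fun b ω => X q b (ω b) / c q b) (fun b _ => c q b) (c q)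
        (fun b _ f f' h => by
          show X q b (f b) / c q b = X q b (f' b) / c q b
          rw [h b (mem_singleton_self b)])
        (fun b _ f f' h => rfl)
        (fun b _ b' _ hbb => by
          rw [disjoint_singleton]
          exact hbb)
        (fun b _ b' _ _ => disjoint_empty_right _)
        (fun b _ => by
          rw [ex_coord b (fun i => X q b i / c q b), ← sum_div, hX0, zero_div, zero_div])
        (fun b hb ω => by
          rw [abs_div, abs_of_pos (hc0 q b hb), div_le_one (hc0 q b hb)]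
          exact hXc q b _)
        (fun b hb ω => by rw [abs_of_pos (hc0 q b hb)]) hS (hcs q)
        (t := nm (a q) * Real.sqrt (8 * s * Λ))
        (mul_nonneg (nm_nonneg _) (Real.sqrt_nonneg _))
      have h3 : (nm (a q) * Real.sqrt (8 * s * Λ)) ^ 2 / (2 * (4 * s * nm (a q) ^ 2)) = Λ := by
        have h4 : nm (a q) ≠ 0 := fun h => by
          rw [h] at hnm
          norm_num at hnm
        rw [mul_pow, Real.sq_sqrt (by positivity)]
        field_simp
        ring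
      rw [h3] at key
      refine le_trans (le_of_eq ?_) key
      congr 1
      funext ω
      rw [hsum]
      congr 2
      refine sum_congr rfl fun b hb => ?_
      rw [div_mul_cancel₀ _ (hc0 q b hb).ne']
  have hdep : ∀ q, DepOnI (I q) (fun ω : β → Fin (M + 1) => nm (a q) * Real.sqrt (8 * s * Λ) <
      |∑ v, a q v * (ζ ω v - μ v)|) := by
    intro q f f' h
    show (nm (a q) * Real.sqrt (8 * s * Λ) < |∑ v, a q v * (ζ f v - μ v)|) =
      (nm (a q) * Real.sqrt (8 * s * Λ) < |∑ v, a q v * (ζ f' v - μ v)|)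
    rw [hsum, hsum, sum_congr rfl fun b hb => by rw [h b hb]]
  have hI1 : ∀ q, ((I q).card : ℝ) ≤ Sp := by
    intro q
    refine le_trans ?_ (hSp q)
    have h1 : I q ⊆ (univ.filter fun v => a q v ≠ 0).image blk := by
      intro b hb
      obtain ⟨v, hv, hne⟩ := (mem_filter.1 hb).2
      exact mem_image.2 ⟨v, mem_filter.2 ⟨mem_univ _, hne⟩,
        (mem_filter.1 (mem_filter.1 hv).1).2⟩
    exact_mod_cast (card_le_card h1).trans card_image_le
  have hI2 : ∀ b, ((univ.filter fun q => b ∈ I q).card : ℝ) ≤ s * Mu := by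
    intro b
    have h1 : (univ.filter fun q => b ∈ I q) ⊆
        (fr (bk blk b) ξ).biUnion fun v => univ.filter fun q => a q v ≠ 0 := by
      intro q hq
      obtain ⟨v, hv, hne⟩ := (mem_filter.1 (mem_filter.1 hq).2).2
      exact mem_biUnion.2 ⟨v, hv, mem_filter.2 ⟨mem_univ _, hne⟩⟩
    have h2 : ((univ.filter fun q => b ∈ I q).card : ℝ) ≤
        ∑ v ∈ fr (bk blk b) ξ, ((univ.filter fun q => a q v ≠ 0).card : ℝ) := by
      exact_mod_cast (card_le_card h1).trans card_biUnion_le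
    refine h2.trans ((sum_le_sum fun v _ => hMu v).trans ?_)
    rw [sum_const, nsmul_eq_mul]
    exact mul_le_mul_of_nonneg_right (by exact_mod_cast hs b) hMu0
  have hL' : Pool.Agent.Work.MP_db9399_ow.Stmt_SYM.{u} :=
    Pool.Agent.Work.MP_db9399_ow.helper21.stmt_SYM Pool.Agent.Work.MP_db9399_all.stmt_LLLI
  obtain ⟨ω, hω⟩ := hL' β (M + 1) κ I (fun q ω => nm (a q) * Real.sqrt (8 * s * Λ) <
      |∑ v, a q v * (ζ ω v - μ v)|) (2 * Real.exp (-Λ)) Sp (s * Mu) hM hSp0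
      (mul_nonneg (Nat.cast_nonneg _) hMu0) hdep hI1 hI2 (by positivity) hpr (by linarith)
  refine ⟨ζ ω, hζ1 ω, fun v hv => hoff ω v (by rw [hv]; exact lt_irrefl _), fun b k => ?_,
    fun b => ?_, fun q => ?_⟩
  · have h1 := (hz1 b (ω b)).sum k
    rw [← h1]
    refine sum_congr rfl fun v hv => ?_
    have h2 : blk v = b := (mem_filter.1 hv).2
    rw [hζ]
    show z (blk v) (ω (blk v)) v * w k v = _
    rw [h2]
  · have h1 := hz2 b (ω b)
    refine le_trans (le_of_eq ?_) h1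
    congr 1
    refine filter_congr fun v hv => ?_
    have h2 : blk v = b := (mem_filter.1 hv).2
    rw [hζ]
    show |z (blk v) (ω (blk v)) v| < 1 ↔ _
    rw [h2]
  · have h1 := hω q
    rw [not_lt] at h1
    have h2 : ∑ v, a q v * (ζ ω v - ξ v) = ∑ v, a q v * (ζ ω v - μ v) +
        ∑ v, a q v * (μ v - ξ v) := by
      rw [← sum_add_distrib]
      exact sum_congr rfl fun v _ => by ring
    have h3 : |∑ v, a q v * (μ v - ξ v)| ≤ nm (a q) := by
      have h4 : |∑ v, a q v * (μ v - ξ v)| ≤ (∑ v, |a q v|) * (2 * 2 ^ s / ((M + 1 : ℕ) : ℝ)) := by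
        refine (abs_sum_le_sum_abs _ _).trans ?_
        rw [sum_mul]
        refine sum_le_sum fun v _ => ?_
        rw [abs_mul]
        exact mul_le_mul_of_nonneg_left (hmean v) (abs_nonneg _)
      have h5 := l1_le (a q) Sp (hSp q)
      have h6 : (∑ v, |a q v|) * (2 * 2 ^ s / ((M + 1 : ℕ) : ℝ)) ≤
          Real.sqrt Sp * nm (a q) * (2 * 2 ^ s / ((M + 1 : ℕ) : ℝ)) :=
        mul_le_mul_of_nonneg_right h5 (by positivity)
      refine h4.trans (h6.trans ?_)
      rw [← mul_div_assoc, div_le_iff₀ hMr]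
      have h7 : 2 * 2 ^ s * Real.sqrt Sp ≤ ((M + 1 : ℕ) : ℝ) := by
        push_cast
        linarith
      calc Real.sqrt Sp * nm (a q) * (2 * 2 ^ s) = nm (a q) * (2 * 2 ^ s * Real.sqrt Sp) := by ring
        _ ≤ nm (a q) * ((M + 1 : ℕ) : ℝ) := mul_le_mul_of_nonneg_left h7 (nm_nonneg _)
    rw [h2]
    refine (abs_add_le _ _).trans ?_
    rw [mul_add, mul_one]
    exact add_le_add h1 h3

end Pool.Agent.Work.MP_db9399_lab.helper61
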